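import Pool.Agent.Helper17.FP.Stmts

set_option autoImplicit false

/-! MP_c38931_co, project FP: module WSUM. -/

open Finset

namespace Pool.Agent.Helper17.FP

open Pool.Agent.Helper17.SO Pool.Agent.Helper17.SV

/-- Abel summation with decreasing weights. -/
theorem wsum_abel (f : ℕ → ℤ) (g : ℕ → ℤ) (K : ℤ)
    (hg : ∀ n, g (n + 2) ≤ g (n + 1)) (hg0 : ∀ n, 0 ≤ g n)
    (hS : ∀ n : ℕ, |∑ d ∈ Ioc 0 n, f d| ≤ K) (n : ℕ) :
    |∑ d ∈ Ioc 0 n, f d * g d| ≤ K * g 1 := by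
  have key : ∀ n : ℕ, |∑ d ∈ Ioc 0 n, f d * g d - (∑ d ∈ Ioc 0 n, f d) * g (n + 1)| ≤
      K * (g 1 - g (n + 1)) := by
    intro n
    induction n with
    | zero => simp
    | succ n ih =>
      have h1 : ∑ d ∈ Ioc 0 (n + 1), f d * g d = ∑ d ∈ Ioc 0 n, f d * g d + f (n + 1) * g (n + 1) :=
        Finset.sum_Ioc_succ_top (Nat.zero_le n) _
      have h2 : ∑ d ∈ Ioc 0 (n + 1), f d = ∑ d ∈ Ioc 0 n, f d + f (n + 1) :=
        Finset.sum_Ioc_succ_top (Nat.zero_le n) _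
      have h3 : ∑ d ∈ Ioc 0 (n + 1), f d * g d - (∑ d ∈ Ioc 0 (n + 1), f d) * g (n + 1 + 1) =
          (∑ d ∈ Ioc 0 n, f d * g d - (∑ d ∈ Ioc 0 n, f d) * g (n + 1)) +
          (∑ d ∈ Ioc 0 (n + 1), f d) * (g (n + 1) - g (n + 2)) := by
        rw [h1, h2]; ring
      rw [h3]
      have h4 : |(∑ d ∈ Ioc 0 (n + 1), f d) * (g (n + 1) - g (n + 2))| ≤
          K * (g (n + 1) - g (n + 2)) := by
        rw [abs_mul, abs_of_nonneg (sub_nonneg.2 (hg n))]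
        exact mul_le_mul_of_nonneg_right (hS _) (sub_nonneg.2 (hg n))
      refine (abs_add_le _ _).trans ((add_le_add ih h4).trans (le_of_eq ?_))
      ring
  have h5 : ∑ d ∈ Ioc 0 n, f d * g d =
      (∑ d ∈ Ioc 0 n, f d * g d - (∑ d ∈ Ioc 0 n, f d) * g (n + 1)) +
      (∑ d ∈ Ioc 0 n, f d) * g (n + 1) := by ring
  rw [h5]
  have h6 : |(∑ d ∈ Ioc 0 n, f d) * g (n + 1)| ≤ K * g (n + 1) := by
    rw [abs_mul, abs_of_nonneg (hg0 _)]
    exact mul_le_mul_of_nonneg_right (hS _) (hg0 _)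
  refine (abs_add_le _ _).trans ((add_le_add (key n) h6).trans (le_of_eq ?_))
  ring

theorem wsum_swap (f : ℕ → ℤ) (R : ℕ) :
    ∑ r ∈ Ioc 0 R, ∑ d ∈ r.divisors, f d = ∑ d ∈ Ioc 0 R, f d * ((R / d : ℕ) : ℤ) := by
  have h1 : ∀ r ∈ Ioc 0 R, ∑ d ∈ r.divisors, f d =
      ∑ d ∈ Ioc 0 R, if d ∣ r then f d else 0 := by
    intro r hr
    rw [Finset.mem_Ioc] at hr
    rw [← Finset.sum_filter]
    apply Finset.sum_congr _ (fun _ _ => rfl)
    ext d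
    rw [Nat.mem_divisors, Finset.mem_filter, Finset.mem_Ioc]
    constructor
    · rintro ⟨h, h'⟩
      exact ⟨⟨Nat.pos_of_dvd_of_pos h hr.1, (Nat.le_of_dvd hr.1 h).trans hr.2⟩, h⟩
    · rintro ⟨-, h⟩
      exact ⟨h, by omega⟩
  rw [Finset.sum_congr rfl h1, Finset.sum_comm]
  refine Finset.sum_congr rfl fun d _ => ?_
  rw [← Finset.sum_filter, Finset.sum_const, Nat.Ioc_filter_dvd_card_eq_div, nsmul_eq_mul,
    mul_comm]

theorem st_WSUM (hP : ST_PER) : ST_WSUM := by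
  intro lam hlam
  obtain ⟨-, h2⟩ := hP
  obtain ⟨h3, -⟩ := h2 lam hlam
  refine ⟨16 * lam, by positivity, fun R => ?_⟩
  have h4 : ∑ r ∈ Ioc 0 R, wt lam r ≤ 16 * (lam : ℤ) * R := by
    have h5 : ∑ r ∈ Ioc 0 R, wt lam r = ∑ d ∈ Ioc 0 R, chi lam d * ((R / d : ℕ) : ℤ) :=
      wsum_swap (chi lam) R
    rw [h5]
    have h6 := wsum_abel (chi lam) (fun d => ((R / d : ℕ) : ℤ)) (16 * lam)
      (fun n => by
        have : R / (n + 2) ≤ R / (n + 1) := Nat.div_le_div_left (by omega) (by omega)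
        exact_mod_cast this)
      (fun n => Int.natCast_nonneg _) (fun n => by exact_mod_cast h3 0 n) R
    have h7 : ((R / 1 : ℕ) : ℤ) = R := by rw [Nat.div_one]
    refine (le_abs_self _).trans (h6.trans (le_of_eq ?_))
    show 16 * (lam : ℤ) * ((R / 1 : ℕ) : ℤ) = 16 * lam * R
    rw [h7]
  have h8 : ((∑ r ∈ Ioc 0 R, wt lam r : ℤ) : ℝ) ≤ ((16 * (lam : ℤ) * R : ℤ) : ℝ) := by
    exact_mod_cast h4
  rw [Int.cast_sum] at h8
  refine h8.trans (le_of_eq ?_)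
  push_cast
  ring

end Pool.Agent.Helper17.FP
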